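import Pool.Agent.X185.FD.Count

/-!
# MP_079569_co: the determinant formula for the flower decomposition

For every R-disjoint graph the determinant of the adjacency matrix is the product of the
determinants of the parts of the flower decomposition.
-/

set_option autoImplicit false

namespace Pool.Agent.Results.MP_079569_co.FlowerDeterminant

open Pool.Agent.X185.FD
open scoped Classical

theorem result {V : Type*} [Fintype V] (G : SimpleGraph V) (hG : RDisjoint G) :
    (G.adjMatrix ℝ).det = ((G.induce (rest G)).adjMatrix ℝ).det *
      ∏ C : {C : Set (Sym2 V) // IsOddCycle G C}, ((G.induce (reach G C.1)).adjMatrix ℝ).det :=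
  det_eq hG

end Pool.Agent.Results.MP_079569_co.FlowerDeterminant
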